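import Mathlib
import Pool.Agent.Helper26.AF.Goals
import Pool.Agent.Helper26.AF.Base

/-!
Packet AF-CYL (project of helper26, MP_af6c86_pr): probabilities of cylinder sets.
-/

set_option autoImplicit false

open Finset
open Pool.Agent.Helper26.AF

namespace Pool.Agent.Helper34.AF

theorem goalCYL : StmtCYL := by
  classical
  intro V _ _ p A B hAB hd
  have hA : A ⊆ EV V := fun e he => mem_EV.2 (hd e (mem_union_left _ he))
  have hB : B ⊆ EV V := fun e he => mem_EV.2 (hd e (mem_union_right _ he))
  set E' := EV V \ (A ∪ B) with hE'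
  have hcard : #(EV V) = #E' + (#A + #B) := by
    rw [← card_union_of_disjoint hAB, hE', card_sdiff_add_card_eq_card (union_subset hA hB)]
  rw [Pr, EE_eq]
  have h1 : ∀ T ∈ (EV V).powerset, ((∀ e ∈ A, e ∈ (SimpleGraph.fromEdgeSet
      (T : Set (Sym2 V))).edgeSet) ∧ ∀ e ∈ B, e ∉ (SimpleGraph.fromEdgeSet
      (T : Set (Sym2 V))).edgeSet) ↔ (A ⊆ T ∧ Disjoint B T) := by
    intro T hT
    rw [mem_powerset] at hT
    rw [edgeSet_fromEdgeSet_of_subset hT, Finset.disjoint_left]
    rfl
  have h2 : ∀ T ∈ (EV V).powerset, ∀ (inst : Decidable ((∀ e ∈ A, e ∈ (SimpleGraph.fromEdgeSet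
      (T : Set (Sym2 V))).edgeSet) ∧ ∀ e ∈ B, e ∉ (SimpleGraph.fromEdgeSet
      (T : Set (Sym2 V))).edgeSet)),
      p ^ #T * (1 - p) ^ ((Fintype.card V).choose 2 - #T) * (@ite ℝ _ inst 1 0)
      = if (A ⊆ T ∧ Disjoint B T) then p ^ #T * (1 - p) ^ (#(EV V) - #T) else 0 := by
    intro T hT inst
    rw [card_EV]
    by_cases h : A ⊆ T ∧ Disjoint B T
    · rw [if_pos h, if_pos ((h1 T hT).2 h), mul_one]
    · rw [if_neg h, if_neg (fun h3 => h ((h1 T hT).1 h3)), mul_zero]
  refine (Finset.sum_congr rfl (fun T hT => h2 T hT _)).trans ?_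
  rw [← Finset.sum_filter]
  have h3 : ∑ T ∈ (EV V).powerset with (A ⊆ T ∧ Disjoint B T), p ^ #T * (1 - p) ^ (#(EV V) - #T)
      = ∑ U ∈ E'.powerset, (p ^ #A * (1 - p) ^ #B) * (p ^ #U * (1 - p) ^ (#E' - #U)) := by
    symm
    refine Finset.sum_bij' (fun U _ => A ∪ U) (fun T _ => T \ A) ?_ ?_ ?_ ?_ ?_
    · intro U hU
      rw [mem_powerset] at hU
      rw [mem_filter, mem_powerset]
      refine ⟨union_subset hA (hU.trans sdiff_subset), subset_union_left, ?_⟩
      rw [disjoint_union_right]
      refine ⟨hAB.symm, ?_⟩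
      rw [Finset.disjoint_left]
      intro e he hu
      have := hU hu
      rw [hE', mem_sdiff] at this
      exact this.2 (mem_union_right _ he)
    · intro T hT
      rw [mem_filter, mem_powerset] at hT
      rw [mem_powerset]
      intro e he
      rw [mem_sdiff] at he
      rw [hE', mem_sdiff, mem_union]
      refine ⟨hT.1 he.1, ?_⟩
      rintro (h | h)
      · exact he.2 h
      · exact (Finset.disjoint_left.1 hT.2.2) h he.1
    · intro U hU
      rw [mem_powerset] at hU
      have : Disjoint U A := by
        rw [Finset.disjoint_left]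
        intro e he ha
        have := hU he
        rw [hE', mem_sdiff] at this
        exact this.2 (mem_union_left _ ha)
      rw [union_sdiff_left]
      exact sdiff_eq_self_of_disjoint this
    · intro T hT
      rw [mem_filter] at hT
      exact union_sdiff_of_subset hT.2.1
    · intro U hU
      rw [mem_powerset] at hU
      have hdis : Disjoint A U := by
        rw [Finset.disjoint_left]
        intro e ha he
        have := hU he
        rw [hE', mem_sdiff] at this
        exact this.2 (mem_union_left _ ha)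
      have hle : #U ≤ #E' := card_le_card hU
      rw [card_union_of_disjoint hdis, hcard, pow_add,
        show #E' + (#A + #B) - (#A + #U) = #B + (#E' - #U) by omega, pow_add]
      ring
  rw [h3, ← Finset.mul_sum, Finset.sum_pow_mul_eq_add_pow]
  simp

end Pool.Agent.Helper34.AF
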