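import Mathlib
import Pool.Agent.Helper26.AF.Goals2

/-!
Packet AF-PAU (project of helper26, MP_af6c86_pr): graphs with given degrees and pairings.
-/

set_option autoImplicit false

open Finset
open Pool.Agent.Helper26.AF

namespace Pool.Agent.Helper34.AF

section
variable {s : ℕ} (d : Fin s → ℕ)

/-- from the splitted set of darts to the darts -/
def ff : ((Σ v : {v : Fin s // d v ≠ 2}, Fin (d v.1)) ⊕ {v : Fin s // d v = 2} × Bool) →
    (Σ v : Fin s, Fin (d v))
  | Sum.inl x => ⟨x.1.1, x.2⟩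
  | Sum.inr wb => ⟨wb.1.1, Fin.cast wb.1.2.symm (if wb.2 then 1 else 0 : Fin 2)⟩

theorem ff_bij : Function.Bijective (ff d) := by
  constructor
  · rintro (⟨⟨v, hv⟩, i⟩ | ⟨⟨v, hv⟩, b⟩) (⟨⟨w, hw⟩, j⟩ | ⟨⟨w, hw⟩, c⟩) h
    · simp only [ff, Sigma.mk.injEq] at h
      obtain ⟨h1, h2⟩ := h
      subst h1
      simp at h2
      subst h2
      rfl
    · simp only [ff, Sigma.mk.injEq] at h
      obtain ⟨h1, h2⟩ := h
      subst h1
      exact absurd hw hv
    · simp only [ff, Sigma.mk.injEq] at h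
      obtain ⟨h1, h2⟩ := h
      subst h1
      exact absurd hv hw
    · simp only [ff, Sigma.mk.injEq] at h
      obtain ⟨h1, h2⟩ := h
      subst h1
      have h3 := eq_of_heq h2
      have h4 := congrArg Fin.val h3
      cases b <;> cases c <;> simp at h4 ⊢
  · rintro ⟨v, i⟩
    by_cases hv : d v = 2
    · refine ⟨Sum.inr (⟨v, hv⟩, decide (i.val = 1)), ?_⟩
      simp only [ff, Sigma.mk.injEq, heq_eq_eq, true_and]
      apply Fin.ext
      have hi : i.val < 2 := by rw [← hv]; exact i.2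
      by_cases h1 : i.val = 1
      · simp [h1]
      · have h0 : i.val = 0 := by omega
        simp [h0]
    · exact ⟨Sum.inl ⟨⟨v, hv⟩, i⟩, rfl⟩

/-- the identification of the darts -/
noncomputable def FF : ((Σ v : {v : Fin s // d v ≠ 2}, Fin (d v.1)) ⊕ {v : Fin s // d v = 2} × Bool) ≃
    (Σ v : Fin s, Fin (d v)) := Equiv.ofBijective (ff d) (ff_bij d)

theorem FF_inr (w : {v : Fin s // d v = 2}) (b : Bool) : (FF d (Sum.inr (w, b))).1 = w.1 := rfl

variable {d}

/-- the pairing of the darts of a labelled graph, as a function -/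
def tau0 (Γ : SimpleGraph (Fin s)) (lab : ∀ v : Fin s, Fin (d v) ≃ Γ.neighborSet v)
    (x : Σ v : Fin s, Fin (d v)) : Σ v : Fin s, Fin (d v) :=
  ⟨(lab x.1 x.2).1, (lab (lab x.1 x.2).1).symm ⟨x.1, (lab x.1 x.2).2.symm⟩⟩

theorem tau0_inv (Γ : SimpleGraph (Fin s)) (lab : ∀ v : Fin s, Fin (d v) ≃ Γ.neighborSet v)
    (x : Σ v : Fin s, Fin (d v)) : tau0 Γ lab (tau0 Γ lab x) = x := by
  obtain ⟨v, i⟩ := x
  have h1 : lab (lab v i).1 ((lab (lab v i).1).symm ⟨v, (lab v i).2.symm⟩)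
      = ⟨v, (lab v i).2.symm⟩ := Equiv.apply_symm_apply _ _
  have key : ∀ (w : Fin s) (hw : Γ.Adj w v) (j : Fin (d w)) (y : Γ.neighborSet w),
      y = ⟨v, hw⟩ → (⟨y.1, (lab y.1).symm ⟨w, y.2.symm⟩⟩ : Σ v : Fin s, Fin (d v))
        = ⟨v, (lab v).symm ⟨w, hw.symm⟩⟩ := by
    intro w hw j y hy
    subst hy
    rfl
  have h2 := key (lab v i).1 (lab v i).2.symm ((lab (lab v i).1).symm ⟨v, (lab v i).2.symm⟩) _ h1
  refine h2.trans ?_
  congr 1
  exact (lab v).symm_apply_apply i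

/-- the pairing of the darts of a labelled graph -/
def tauE (Γ : SimpleGraph (Fin s)) (lab : ∀ v : Fin s, Fin (d v) ≃ Γ.neighborSet v) :
    Equiv.Perm (Σ v : Fin s, Fin (d v)) where
  toFun := tau0 Γ lab
  invFun := tau0 Γ lab
  left_inv := tau0_inv Γ lab
  right_inv := tau0_inv Γ lab

/-- the pairing of the splitted darts of a labelled graph -/
noncomputable def tau (Γ : SimpleGraph (Fin s)) (lab : ∀ v : Fin s, Fin (d v) ≃ Γ.neighborSet v) :
    Equiv.Perm ((Σ v : {v : Fin s // d v ≠ 2}, Fin (d v.1)) ⊕ {v : Fin s // d v = 2} × Bool) :=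
  ((FF d).trans (tauE Γ lab)).trans (FF d).symm

theorem FF_tau (Γ : SimpleGraph (Fin s)) (lab : ∀ v : Fin s, Fin (d v) ≃ Γ.neighborSet v) (x) :
    FF d (tau Γ lab x) = tau0 Γ lab (FF d x) := by
  simp only [tau, Equiv.trans_apply, Equiv.apply_symm_apply]
  rfl

theorem tau_pair (Γ : SimpleGraph (Fin s)) (lab : ∀ v : Fin s, Fin (d v) ≃ Γ.neighborSet v) :
    IsPair (tau Γ lab) := by
  intro x
  constructor
  · apply (FF d).injective
    rw [FF_tau, FF_tau, tau0_inv]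
  · intro h
    have h1 := congrArg (FF d) h
    rw [FF_tau] at h1
    have h2 := congrArg Sigma.fst h1
    have h3 : Γ.Adj (FF d x).1 (tau0 Γ lab (FF d x)).1 := (lab (FF d x).1 (FF d x).2).2
    rw [h2] at h3
    exact h3.ne rfl

theorem handshake (Γ : SimpleGraph (Fin s)) : ∑ v, dg Γ v = 2 * ne Γ := by
  classical
  have h1 := Γ.sum_degrees_eq_twice_card_edges
  have h2 : ∀ v, dg Γ v = Γ.degree v := by
    intro v
    rw [dg, Nat.card_eq_fintype_card, SimpleGraph.card_neighborSet_eq_degree]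
  have h3 : ne Γ = Γ.edgeFinset.card := by
    rw [ne, Nat.card_eq_fintype_card, SimpleGraph.edgeFinset_card]
  rw [h3, ← h1]
  exact Finset.sum_congr rfl (fun v _ => h2 v)

theorem tau_noPure (Γ : SimpleGraph (Fin s)) (lab : ∀ v : Fin s, Fin (d v) ≃ Γ.neighborSet v)
    (hc : Γ.Connected) (hd : ∀ v, dg Γ v = d v) (r : ℕ) (hr : 1 ≤ r) (he : ne Γ = s + r) :
    NoPure (tau Γ lab) := by
  intro C hC
  by_contra hcon
  push Not at hcon
  -- all neighbours of a vertex of C are in C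
  have hnb : ∀ v : Fin s, (∃ w ∈ C, w.1 = v) → ∀ u, Γ.Adj v u → ∃ w ∈ C, w.1 = u := by
    rintro v ⟨w, hw, rfl⟩ u hu
    have hx : ∃ b : Bool, ff d (Sum.inr (w, b)) = ⟨w.1, (lab w.1).symm ⟨u, hu⟩⟩ := by
      obtain ⟨x, hx⟩ := (ff_bij d).2 ⟨w.1, (lab w.1).symm ⟨u, hu⟩⟩
      rcases x with ⟨⟨v', hv'⟩, i⟩ | ⟨⟨v', hv'⟩, b⟩
      · have := congrArg Sigma.fst hx
        change v' = w.1 at this
        rw [this] at hv'
        exact absurd w.2 hv'
      · have := congrArg Sigma.fst hx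
        change v' = w.1 at this
        refine ⟨b, ?_⟩
        rw [← hx]
        congr 3
        exact Subtype.ext this.symm
    obtain ⟨b, hb⟩ := hx
    obtain ⟨w', hw', b', hb'⟩ := hcon w hw b
    refine ⟨w', hw', ?_⟩
    have h1 := FF_tau Γ lab (Sum.inr (w, b))
    rw [hb'] at h1
    have h2 := congrArg Sigma.fst h1
    rw [FF_inr] at h2
    rw [h2]
    have h3 : FF d (Sum.inr (w, b)) = ⟨w.1, (lab w.1).symm ⟨u, hu⟩⟩ := hb
    rw [h3]
    change (lab w.1 ((lab w.1).symm ⟨u, hu⟩)).1 = u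
    rw [Equiv.apply_symm_apply]
  obtain ⟨w0, hw0⟩ := hC
  have hall : ∀ u, ∃ w ∈ C, w.1 = u := by
    intro u
    obtain ⟨p⟩ := hc.preconnected w0.1 u
    have : ∀ (a b : Fin s) (p : Γ.Walk a b), (∃ w ∈ C, w.1 = a) → ∃ w ∈ C, w.1 = b := by
      intro a b p
      induction p with
      | nil => exact id
      | cons h _ ih => exact fun ha => ih (hnb _ ha _ h)
    exact this _ _ p ⟨w0, hw0, rfl⟩
  have hd2 : ∀ v, d v = 2 := by
    intro v
    obtain ⟨w, _, rfl⟩ := hall v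
    exact w.2
  have h1 := handshake Γ
  have h2 : ∑ v, dg Γ v = 2 * s := by
    rw [Finset.sum_congr rfl (fun v _ => (hd v).trans (hd2 v))]
    simp [mul_comm]
  omega

end

theorem goalPAU : StmtPAU := by
  classical
  intro s r d hr _
  set GG := {Γ : SimpleGraph (Fin s) // Γ.Connected ∧ (∀ v, dg Γ v = d v) ∧ ne Γ = s + r} with hGG
  have hcard : Nat.card (Σ Γ : GG, ∀ v : Fin s, Fin (d v) ≃ Γ.1.neighborSet v)
      = Nat.card GG * ∏ v, (d v).factorial := by
    have h1 : ∀ Γ : GG, Nat.card (∀ v : Fin s, Fin (d v) ≃ Γ.1.neighborSet v)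
        = ∏ v, (d v).factorial := by
      intro Γ
      rw [Nat.card_pi]
      apply Finset.prod_congr rfl
      intro v _
      have h2 : Nat.card (Γ.1.neighborSet v) = d v := Γ.2.2.1 v
      have e : Fin (d v) ≃ Γ.1.neighborSet v := (Finite.equivFinOfCardEq h2).symm
      rw [Nat.card_eq_fintype_card, Fintype.card_equiv e, Fintype.card_fin]
    have : Fintype GG := Fintype.ofFinite _
    rw [Nat.card_sigma, Finset.sum_congr rfl (fun Γ _ => h1 Γ)]
    simp
  rw [← hcard]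
  refine Nat.card_le_card_of_injective
    (fun x : (Σ Γ : GG, ∀ v : Fin s, Fin (d v) ≃ Γ.1.neighborSet v) =>
      (⟨tau x.1.1 x.2, tau_pair x.1.1 x.2,
        tau_noPure x.1.1 x.2 x.1.2.1 x.1.2.2.1 r hr x.1.2.2.2⟩ :
        {τ : Equiv.Perm ((Σ v : {v : Fin s // d v ≠ 2}, Fin (d v.1)) ⊕
          {v : Fin s // d v = 2} × Bool) // IsPair τ ∧ NoPure τ})) ?_
  rintro ⟨⟨Γ, hΓ⟩, lab⟩ ⟨⟨Γ', hΓ'⟩, lab'⟩ h
  have h1 : tau Γ lab = tau Γ' lab' := congrArg Subtype.val h
  have h2 : ∀ x, tau0 Γ lab x = tau0 Γ' lab' x := by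
    intro x
    obtain ⟨y, rfl⟩ := (FF d).surjective x
    rw [← FF_tau, ← FF_tau, h1]
  have h3 : ∀ v i, (lab v i).1 = (lab' v i).1 := fun v i => congrArg Sigma.fst (h2 ⟨v, i⟩)
  have h4 : Γ = Γ' := by
    ext v w
    constructor
    · intro hvw
      have h5 := h3 v ((lab v).symm ⟨w, hvw⟩)
      rw [Equiv.apply_symm_apply] at h5
      change w = _ at h5
      rw [h5]
      exact (lab' v ((lab v).symm ⟨w, hvw⟩)).2
    · intro hvw
      have h5 := h3 v ((lab' v).symm ⟨w, hvw⟩)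
      rw [Equiv.apply_symm_apply] at h5
      change _ = w at h5
      rw [← h5]
      exact (lab v ((lab' v).symm ⟨w, hvw⟩)).2
  subst h4
  have h5 : lab = lab' := by
    funext v
    apply Equiv.ext
    intro i
    exact Subtype.ext (h3 v i)
  rw [h5]

end Pool.Agent.Helper34.AF
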